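import Mathlib
import Pool.Agent.X20.FourAry

/-! `ν_2(S_{4,2^s}(n)) = s + 1 + (ν_2(2n) mod 2)` for all `s ≥ 2`, `n ≥ 1`. -/

namespace Pool.Agent.Results.MP_c5dce0_nt.Valuation

open PowerSeries Pool.Agent.X20.FourAry

/-- For every `s ≥ 2` and `n ≥ 1`: `S_{4,2^s}(n)` is nonzero, its `2`-adic valuation is
`s + 1 + (ν_2(2n) mod 2)`, and the largest `e` with `4^e ∣ S_{4,2^s}(n)` is
`⌊(s+1)/2⌋ + ((s+1) ν_2(2n) mod 2)`.  More generally, for every nonzero multiple `t` of `4` and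
every `n ≥ 1`, `ν_2(S_{4,t}(n)) = ν_2(t) + 1 + (ν_2(2n) mod 2)`.
Here `S t n` is the coefficient of `x^n` in `(1-x)^{-t} ∏_{i ≤ n} (1-x^{4^i})^{-3t}`. -/
theorem result :
    (∀ s n : ℕ, 2 ≤ s → 1 ≤ n → S (2 ^ s) n ≠ 0 ∧
      padicValInt 2 (S (2 ^ s) n) = s + 1 + padicValNat 2 (2 * n) % 2 ∧
      multiplicity (4 : ℤ) (S (2 ^ s) n) = (s + 1) / 2 + ((s + 1) * padicValNat 2 (2 * n)) % 2) ∧
    (∀ t n : ℕ, 4 ∣ t → t ≠ 0 → n ≠ 0 →
      padicValInt 2 (S t n) = padicValNat 2 t + 1 + padicValNat 2 (2 * n) % 2) := by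
  refine ⟨fun s n hs hn => ?_, fun t n ht ht0 hn => val_S t n ht ht0 hn⟩
  have h2 : Fact (Nat.Prime 2) := ⟨Nat.prime_two⟩
  have h4 : 4 ∣ 2 ^ s := by
    obtain ⟨k, rfl⟩ := Nat.exists_eq_add_of_le hs
    exact ⟨2 ^ k, by rw [pow_add]; norm_num⟩
  have hv := val_S (2 ^ s) n h4 (by positivity) (by omega)
  rw [padicValNat.prime_pow] at hv
  refine ⟨S_ne_zero _ _ h4 (by positivity) (by omega), hv, ?_⟩
  rw [multiplicity_four' _ _ h4 (by positivity) (by omega), hv]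
  rcases Nat.mod_two_eq_zero_or_one (padicValNat 2 (2 * n)) with h | h
  · rw [h, Nat.mul_mod, h]; simp
  · rw [h, Nat.mul_mod, h]; simp; omega

end Pool.Agent.Results.MP_c5dce0_nt.Valuation
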